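import Pool.Agent.H837.UF.Final

/-!
# Finite-dimensionality of zero-cycles on a complex surface and rational equivalences of bounded
# complexity on its reductions to positive characteristic

No hypothesis is assumed. Let `X` be an irreducible projective surface over the complex numbers, given
by homogeneous equations `S` with coefficients in a finitely generated subring `R` of the complex
numbers. (Every complex projective surface is of this kind.) For every homomorphism `φ` from `R` to an
algebraic closure `F` of the field with `p` elements there is the reduction `X_φ`, the projective
variety over `F` given by the equations with the coefficients `φ(c)`. Let `∑ l a x_a = 0` be a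
hyperplane over `R` which does not contain `X`.

**Theorem.** The following are equivalent:

1. `B(X)` is finite-dimensional: the integers `d_n` are bounded (`d(X) = 0`);
2. there are a number `c`, a nonzero `h` in `R` and `p₀` such that for all `p ≥ p₀` and all `φ` with
   `φ(h) ≠ 0` every effective zero-cycle of degree `c + 1` on the reduction `X_φ` is rationally
   equivalent, with complexity at most `c`, to an effective zero-cycle with a point on the hyperplane;
3. there is a number `c` such that for all nonzero `h` in `R` and all `p₀` this is true for at least one
   prime `p ≥ p₀` and one `φ` with `φ(h) ≠ 0`.

Here a rational equivalence between the effective zero-cycles `x` and `y` of degree `n` has complexity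
at most `c` if for an effective zero-cycle `w` of degree `c` the zero-cycles `x + w` and `y + w` are the
values at `0` and `∞` of a morphism of degree `c` from the projective line to the symmetric product
`S^(n+c)`, embedded by Chow forms.

On smooth surfaces over an algebraic closure of a finite field all zero-cycles of degree zero are
torsion and all zero-cycles in the kernel of the Albanese map are rationally equivalent to zero (Milne,
Roitman). So without the bound for the complexity the condition in (2) is always satisfied there, for
`c` large, also for surfaces with `p_g > 0`, while by the theorems of Mumford the complexity is not
bounded for surfaces with `p_g > 0`. The theorem says that the conjecture of Bloch (Q1), that `B(X)` is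
finite-dimensional if `p_g = 0`, is nothing but the boundedness of the rational equivalences which are
known to exist on the reductions of `X`, uniform in `p` (2), and that it is enough to bound them on one
sequence of reductions which is dense (3).

## The proof

* Over the complex numbers `B(X)` is finite-dimensional if and only if for one `n` every effective
  zero-cycle of degree `n + 1` is rationally equivalent to one with a point on the hyperplane section
  (Roitman; this uses the library files of project OD: specialisation of rational equivalence,
  zero-cycles on the curve section are bounded).
* The field of complex numbers is isomorphic, over `R`, to the ultraproduct of the fields `F_j` of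
  characteristic `p_j` for every sequence of homomorphisms `φ_j` from `R` to `F_j` such that every
  nonzero element of `R` is mapped to zero only by finitely many of the `φ_j`. (Both are algebraically
  closed and have the cardinality of the continuum.)
* Two effective zero-cycles on the ultraproduct are rationally equivalent with complexity at most `c` if
  and only if the corresponding zero-cycles over `F_j` are, for almost all `j` (Łoś; the values of the
  families at all points of the line must be Chow forms, so both directions are proved together).
* If (2) is false then there are such `φ_j` and zero-cycles `x_j` of degree `j + 1` which cannot be
  moved with complexity `j`. For every `n` one finds a zero-cycle of degree `n + 1` over the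
  ultraproduct which cannot be moved with any complexity. If (3) is true then it is true in the
  ultraproduct. The existence of reductions for almost all `p`, (2) ⟹ (3), also follows from the
  ultraproduct.
-/

set_option autoImplicit false

namespace Pool.Agent.Results.MP_7ebcb6_ag.BoundedOverFiniteFields

open MvPolynomial Pool.Agent.Y148.OD Pool.Agent.H837.UF

/-- **Finite-dimensionality is uniform boundedness over finite fields.** -/
theorem result {R : Type} [CommRing R] [Algebra.FiniteType ℤ R] {r : ℕ}
    (S : Finset (MvPolynomial (Fin (r + 1)) R)) (hS : ∀ P ∈ S, ∃ d : ℕ, P.IsHomogeneous d)
    (l : Fin (r + 1) → R) (ι : R →+* ℂ) (hι : Function.Injective ι)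
    (hX : IsVariety (Member S ι) 2) (hl : ∃ v ∈ Cone S ι, ∑ a, ι (l a) * v a ≠ 0) :
    List.TFAE
      [∃ c : ℕ, ∀ n, dn (Member S ι) 2 n ≤ c,
       ∃ (h : R) (c p₀ : ℕ), h ≠ 0 ∧ ∀ (p : ℕ) [Fact p.Prime], p₀ ≤ p →
         ∀ φ : R →+* AlgebraicClosure (ZMod p), φ h ≠ 0 → Moves S l φ c c,
       ∃ c : ℕ, ∀ h : R, h ≠ 0 → ∀ p₀ : ℕ, ∃ (p : ℕ) (_ : Fact p.Prime)
         (φ : R →+* AlgebraicClosure (ZMod p)), p₀ ≤ p ∧ φ h ≠ 0 ∧ Moves S l φ c c] :=
  main S hS l ι hι hX hl

end Pool.Agent.Results.MP_7ebcb6_ag.BoundedOverFiniteFields
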