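import Pool.Agent.H837.Arith.Final

/-!
# The Bloch–Beilinson conjecture over the complex numbers, over the algebraic numbers, and normal
# functions

Let `𝒱` be the class of all smooth projective complex varieties and `𝒱₀` that of all smooth
projective varieties over an algebraically closed subfield `k₀` of the complex numbers, for example
the field of algebraic numbers; `C`, `C₀` are the Chow groups (rational coefficients), `W`, `W₀` the
cohomology, `N`, `N₀` the kernels of the Abel–Jacobi maps (those of the complex points, for varieties
over `k₀`). `IsBBAJ W N F` says that `F` is a Bloch–Beilinson filtration: conditions 1 to 4 of the
problem, in particular `F^2 = ker(AJ)`. Suppose that the category of homological motives over `k₀` is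
semisimple (`RegularMotives`; by Jannsen this is so if homological and numerical equivalence
coincide), and that the standard conjecture of Lefschetz type is true for complex varieties.

**Theorem.** There is a Bloch–Beilinson filtration for the complex varieties if and only if

1. there is one for the varieties over `k₀`, and
2. if the Abel–Jacobi invariant of a homologically trivial class `x` on a complex variety `X` is
   zero, then the normal function of each spread of `x` over `k₀` has trivial topological invariant
   (`NormalFunctionCondition`).

In 2, `X` is the generic fibre, over the complex numbers, of a morphism `Y → B` of varieties over
`k₀`, and `x` is the restriction of a class `y` on `Y`. The normal function attached to `y` is zero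
at the very general point of `B` which corresponds to `X`. The condition says that the class of `y`
in `H^(2j)(Y)` lies in the step two of the Leray filtration, up to classes which come from proper
closed subsets of `B`. It is a statement on one fibre and one cycle, on the field of definition of
the zero loci of normal functions of cycles which are defined over `k₀`.

So for the existence of the filtration over the complex numbers, including the equality of `F^2` and
the kernel of the Abel–Jacobi map for all complex cycles, only the cycles which are defined over the
field of algebraic numbers, and the loci where their Abel–Jacobi invariants vanish, have to be
considered. (Conjecturally the Abel–Jacobi maps are injective on the homologically trivial cycles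
over the field of algebraic numbers; then 1 is true with `F^2 = 0`.)

What is used of geometry is contained in the definitions `IsSpread`, `CanSpread` and `IsExtension`:
resolution of singularities, the theorems of Deligne on the Leray spectral sequence and on weights,
and the exactness (up to isogeny) of the functor from Hodge structures to intermediate Jacobians.

The idea of the proof. Let `F` be the filtration over `k₀`, `δ` a degree operator of `X`, `ε` its
extension to `Y`, and `x` in `CH^j(X)` in the kernel of the Abel–Jacobi map with
`δ x = (2j - 1) x`. By 2 a product of operators `ε - (2j - a)` with `a ≥ 2` maps the class of `y` to
the part of the cohomology which comes from the boundary, on which there is an algebraic projector;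
this gives a homologically trivial cycle `z` on `Y` which restricts to a nonzero multiple of `x`. The
Abel–Jacobi invariant of `z` comes from the step one of the Leray filtration of `H^(2j-1)(Y)`, so
that a product of operators `ε - (2j - 1 - a)` with `a ≥ 1` maps `z` to the kernel of the
Abel–Jacobi map of `Y`, that is, to `F^2`, up to the boundary; and now the operators
`ε - (2j - r - a)` with `r ≥ 2` lead to `F^(j+1) = 0`. The factors of the restrictions to `X` of all
these operators are not zero at `x`, so `x` is zero. In the same way one sees that the eigenvalues of
degree operators on the homologically trivial classes in `CH^j(X)` are less than `2j`, and with the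
Lefschetz conjecture one gets Chow–Künneth decompositions which define the filtration. Conversely,
`F^2` of a Bloch–Beilinson filtration is annihilated by the product of the `δ - m`, `j ≤ m ≤ 2j - 2`,
and the same product of operators `ε - m` is invertible on the step one modulo the step two of the
Leray filtration of `H^(2j)(Y)`.
-/

open Pool.Agent.H914 Pool.Agent.R903 Pool.Agent.T6.H15.BB Pool.Agent.H837.Arith

universe u v w u' v' w'

namespace Pool.Agent.Results.MP_08891c_ag.NormalFunctions

theorem result {k₀ : Type u} [Field k₀] {𝒱₀ : VarClass k₀} {C₀ : ChowTheory.{u, v} 𝒱₀}
    {W₀ : WeilTheory.{u, v, w} C₀} {N₀ : Kernels C₀} {K : Type u'} [Field K] {𝒱 : VarClass K}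
    {C : ChowTheory.{u', v'} 𝒱} {W : WeilTheory.{u', v', w'} C} {N : Kernels C}
    (hN : IsAJKernel W N) (hL : ∀ X, Lefschetz W X) (hR : RegularMotives W₀)
    (hS : CanSpread W₀ N₀ W N) (E : BaseExtension C₀ C) (hE : IsExtension W₀ N₀ W N E) :
    (∃ F, IsBBAJ W N F) ↔ (∃ F₀, IsBBAJ W₀ N₀ F₀) ∧ NormalFunctionCondition W₀ N₀ W N :=
  main hN hL hR hS hE

end Pool.Agent.Results.MP_08891c_ag.NormalFunctions
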